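import Pool.Agent.Y682.XF.Stm
import Pool.Agent.Y18.NF.Tr

/-! Project XF (helper682): transport of the Euler product of the twist (job 5515). -/

set_option autoImplicit false

namespace Pool.Agent.Y434.XF

open NumberField IsDedekindDomain

open Pool.Agent.Y18.NF (plE mem_plE resE absNorm_plE)
open Pool.Agent.Y682.XF (pts a factor base)

lemma pts_congr (W : WeierstrassCurve ℤ) {R R' : Type} [CommRing R] [CommRing R'] (e : R ≃+* R') :
    pts W R = pts W R' := by
  unfold Pool.Agent.Y682.XF.pts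
  refine Nat.card_congr (Equiv.subtypeEquiv (Equiv.prodCongr e.toEquiv e.toEquiv) fun x => ?_)
  have h : W.map (Int.castRingHom R') = (W.map (Int.castRingHom R)).map (e : R →+* R') := by
    rw [WeierstrassCurve.map_map]
    congr 1
    exact RingHom.ext_int _ _
  show _ ↔ (W.map (Int.castRingHom R')).toAffine.Equation _ _
  rw [h]
  exact (WeierstrassCurve.Affine.map_equation (W.map (Int.castRingHom R)).toAffine
    (f := (e : R →+* R')) e.injective x.1 x.2).symm

section

variable {K K' : Type} [Field K] [NumberField K] [Field K'] [NumberField K']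

lemma a_plE (W : WeierstrassCurve ℤ) (e : 𝓞 K ≃+* 𝓞 K') (v : HeightOneSpectrum (𝓞 K)) :
    a W (plE e v) = a W v := by
  unfold Pool.Agent.Y682.XF.a
  rw [absNorm_plE, pts_congr W (resE e v)]

lemma factor_plE (W : WeierstrassCurve ℤ) (e : 𝓞 K ≃+* 𝓞 K') (s : ℂ)
    (v : HeightOneSpectrum (𝓞 K)) : factor W s (plE e v) = factor W s v := by
  unfold Pool.Agent.Y682.XF.factor
  rw [absNorm_plE, a_plE]
  have h : ((W.Δ : ℤ) : 𝓞 K') ∈ (plE e v).asIdeal ↔ ((W.Δ : ℤ) : 𝓞 K) ∈ v.asIdeal := by
    rw [mem_plE, map_intCast]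
  by_cases h1 : ((W.Δ : ℤ) : 𝓞 K) ∈ v.asIdeal
  · rw [if_pos h1, if_pos (h.2 h1)]
  · rw [if_neg h1, if_neg (fun h2 => h1 (h.1 h2))]

end

theorem t_TRD : Pool.Agent.Y682.XF.S_TRD := by
  intro W K K' _ _ _ _ e z A h
  rw [← (plE (NumberField.RingOfIntegers.mapRingEquiv e)).hasProd_iff]
  refine (congrArg (fun g => HasProd g A) (funext fun v => ?_)).mp h
  exact (factor_plE W (NumberField.RingOfIntegers.mapRingEquiv e) z v).symm

end Pool.Agent.Y434.XF
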